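import Pool.Agent.Y602.TriK

/-!
# The clique conditions are coNP-complete, and everything between CIS and them is coNP-hard

The `k`-clique condition: for every maximal stable set `S` and every clique with `k` vertices, none
of them in `S`, some vertex of `S` is adjacent to all vertices of the clique.  For `k = 2` it is the
triangle condition, and CIS graphs (every maximal clique meets every maximal stable set) satisfy it
for all `k`.

For every `k ≥ 2` recognising the graphs with the `k`-clique condition is coNP-complete, and every
graph problem which all nonempty CIS graphs satisfy and which implies the `k`-clique condition is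
coNP-hard.  In particular TRIANGLE is coNP-complete.

This is a stronger form of `Pool.Agent.Results.MP_679d83_lc.TriangleCoNPComplete` (the case `k = 2`
of the first part).
-/

set_option autoImplicit false

namespace Pool.Agent.Results.MP_679d83_lc.CliqueConditions

open Pool.Agent.NPC Pool.Agent.H622R2 Pool.Agent.H495R3 Pool.Agent.Y602

theorem result :
    -- for every `k ≥ 2`, recognising the graphs with the `k`-clique condition is coNP-complete
    (∀ k : ℕ, 2 ≤ k →
      InCoNPP (fun M : List (List Bool) => CliqueCond k (matGraph M)) ∧
      CoNPHardP (fun M : List (List Bool) => CliqueCond k (matGraph M))) ∧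
    -- every problem between the nonempty CIS graphs and the `k`-clique condition is coNP-hard
    (∀ k : ℕ, 2 ≤ k → ∀ Q : List (List Bool) → Prop,
      (∀ M, M ≠ [] → IsCIS (matGraph M) → Q M) → (∀ M, Q M → CliqueCond k (matGraph M)) →
        CoNPHardP Q) ∧
    -- TRIANGLE is the case `k = 2`
    (∀ M : List (List Bool), CliqueCond 2 (matGraph M) ↔ IsTriangleGraph (matGraph M)) ∧
    InCoNPP (fun M : List (List Bool) => IsTriangleGraph (matGraph M)) ∧
    CoNPHardP (fun M : List (List Bool) => IsTriangleGraph (matGraph M)) := by
  have h1 : ∀ k : ℕ, 2 ≤ k → ∀ Q : List (List Bool) → Prop,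
      (∀ M, M ≠ [] → IsCIS (matGraph M) → Q M) → (∀ M, Q M → CliqueCond k (matGraph M)) →
        CoNPHardP Q := fun k hk Q h h' => sandwich hk h h'
  refine ⟨fun k hk => ⟨inCoNP_cliqueCond k, ?_⟩, h1, fun M => cliqueCond_two _,
    inCoNP_triangle, ?_⟩
  · exact h1 k hk _ (fun M _ h => h.cliqueCond k) (fun _ h => h)
  · exact h1 2 le_rfl _ (fun M _ h => (cliqueCond_two _).1 (h.cliqueCond 2))
      (fun M h => (cliqueCond_two _).2 h)

end Pool.Agent.Results.MP_679d83_lc.CliqueConditions
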